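import Pool.Agent.P.MP_7f9008_an.GMain

/-! The moduli in the three-point condition that give an extension whose distortion is
integrable with every exponent. -/

namespace Pool.Agent.Results.MP_7f9008_an.EveryExponent

open Set Filter Topology Pool.Agent.P.MP_7f9008_an

theorem result (𝒜 : ℝ → ℝ) (h𝒜 : MonotoneOn 𝒜 (Ici 0))
    (hdbl : ∃ C : ℝ, ∀ᶠ s in atTop, 𝒜 (2 * s) ≤ C * 𝒜 s)
    (hgrow : ∃ c : ℝ, 0 < c ∧ ∀ᶠ s in atTop, c * √s ≤ 𝒜 s)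
    (t₀ : ℝ) (ht₀ : 0 < t₀) (φ : ℝ → ℝ) (hpos : ∀ t ∈ Ioo 0 t₀, 0 < φ t)
    (hmono : MonotoneOn φ (Ioo 0 t₀)) :
    AdmAll 𝒜 φ ↔ (∀ c : ℝ, 0 < c → ∃ᶠ t in 𝓝[>] (0 : ℝ), φ t < c * t) ∨
      ∀ ε : ℝ, 0 < ε → ∀ᶠ t in 𝓝[>] (0 : ℝ), 𝒜 ((φ t / t) ^ 4) ≤ ε * Real.log (1 / t) := by
  have e1 : ∀ D x, max (Kf D x) 0 = Kf D x := fun D x => max_eq_left (Kf_nonneg D x)
  have e2 : ∀ t, max ((φ t / t) ^ 4) 0 = (φ t / t) ^ 4 := fun t => max_eq_left (by positivity)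
  have r := (gg_max h𝒜 hdbl hgrow).admAll ht₀ hpos hmono
  simp only [AdmAll, PropAll, e1, e2] at r
  exact r

end Pool.Agent.Results.MP_7f9008_an.EveryExponent
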