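import Pool.Agent.P.MP_7f9008_an.Upper
import Pool.Agent.P.MP_7f9008_an.Lower

/-! Description of the admissible moduli in the three-point condition. -/

namespace Pool.Agent.Results.MP_7f9008_an.Sharp

open Set Filter Topology Pool.Agent.P.MP_7f9008_an

theorem result (t₀ : ℝ) (ht₀ : 0 < t₀) (φ : ℝ → ℝ) (hpos : ∀ t ∈ Ioo 0 t₀, 0 < φ t)
    (hmono : MonotoneOn φ (Ioo 0 t₀)) :
    Admissible φ ↔
      (∀ c : ℝ, 0 < c → ∃ᶠ t in 𝓝[>] (0 : ℝ), φ t < c * t) ∨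
        ∃ A : ℝ, ∀ᶠ t in 𝓝[>] (0 : ℝ), φ t ≤ A * t * Real.log (1 / t) ^ (1 / 4 : ℝ) := by
  have hp : ∀ᶠ t in 𝓝[>] (0 : ℝ), 0 < φ t := mem_of_superset (Ioo_mem_nhdsGT ht₀) hpos
  constructor
  · intro h
    by_contra hn
    simp only [not_or, not_forall, not_frequently, not_lt, not_exists, not_eventually, not_le,
      exists_prop] at hn
    obtain ⟨⟨c, hc, h1⟩, h2⟩ := hn
    exact not_admissible ht₀ hmono hc h1 h2 h
  · rintro (h | ⟨A, h⟩)
    · intro Ω hΩ h3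
      obtain ⟨c, hc, h4⟩ := h3.lower hΩ hp
      obtain ⟨t, h5, h6⟩ := ((h c hc).and_eventually h4).exists
      exact absurd h5 (not_lt.2 h6)
    · exact admissible_of_le (hp.and h)

end Pool.Agent.Results.MP_7f9008_an.Sharp
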